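import Pool.Agent.Helper45.RT.Stmts3

set_option autoImplicit false

namespace RTwo

theorem st_FILT (h1 : ST_RLR) (h2 : ST_BITS) : ST_FILT := by
  intro I T L P N hT
  induction N with
  | zero => intro i ctr s _ j hj; omega
  | succ N ih =>
    intro i ctr s h j hj
    have e : filt T L P (N + 1) i ctr s =
        sel (Nat.beq (s % 65536) 0)
          (sel (Nat.beq (get P i) (get L ctr)) (filt T L P N (i + 1) (ctr + 1) (s >>> 16)) false)
          (maskC (get P i) (get T (s % 65536)) (filt T L P N (i + 1) ctr (s >>> 16))) := rfl
    rw [e] at h
    cases hs : Nat.beq (s % 65536) 0 with
    | true =>
      rw [hs] at h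
      change sel (Nat.beq (get P i) (get L ctr)) (filt T L P N (i + 1) (ctr + 1) (s >>> 16)) false =
        true at h
      cases hg : Nat.beq (get P i) (get L ctr) with
      | true =>
        rw [hg] at h
        change filt T L P N (i + 1) (ctr + 1) (s >>> 16) = true at h
        cases j with
        | zero => exact Or.inr ⟨ctr, (Nat.eq_of_beq_eq_true hg).symm⟩
        | succ j =>
          have := ih (i + 1) (ctr + 1) (s >>> 16) h j (by omega)
          rw [show i + (j + 1) = i + 1 + j by ring]
          exact this
      | false =>
        rw [hg] at h
        change false = true at h
        exact absurd h (by simp)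
    | false =>
      rw [hs] at h
      change maskC (get P i) (get T (s % 65536)) (filt T L P N (i + 1) ctr (s >>> 16)) = true at h
      have e2 : maskC (get P i) (get T (s % 65536)) (filt T L P N (i + 1) ctr (s >>> 16)) =
        sel (Nat.beq ((get P i) &&& (get T (s % 65536))) (get T (s % 65536)))
          (sel (Nat.beq (get T (s % 65536)) 0) false (filt T L P N (i + 1) ctr (s >>> 16)))
          false := rfl
      rw [e2] at h
      cases hb : Nat.beq ((get P i) &&& (get T (s % 65536))) (get T (s % 65536)) with
      | false =>
        rw [hb] at h
        change false = true at h
        exact absurd h (by simp)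
      | true =>
        rw [hb] at h
        change sel (Nat.beq (get T (s % 65536)) 0) false (filt T L P N (i + 1) ctr (s >>> 16)) =
          true at h
        cases hz : Nat.beq (get T (s % 65536)) 0 with
        | true =>
          rw [hz] at h
          change false = true at h
          exact absurd h (by simp)
        | false =>
          rw [hz] at h
          change filt T L P N (i + 1) ctr (s >>> 16) = true at h
          have hM : get T (s % 65536) ≠ 0 := by
            intro h0
            rw [h0] at hz
            exact absurd hz (by decide)
          have hand := Nat.eq_of_beq_eq_true hb
          cases j with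
          | zero =>
            refine Or.inl (fun c hc hcode hR => hT _ hM ?_)
            have hc3 : ∀ i j, i < 7 → j < 7 → c i j ≤ 3 := fun i j hi hj => by
              have := (hc i j hi hj).2.2
              omega
            obtain ⟨b1, -, -, -, b5⟩ := h2 7 c (by norm_num) hc3
            refine h1 I I 7 7 c (dgt (get T (s % 65536))) id hR (fun _ _ h => h)
              (fun i j hij _ => hij) (fun i hi => hi) ?_
            intro x y e hx hy he hbit
            rw [b5 _ _ _ _ he] at hbit
            change (c x y).testBit e = true
            rw [← b1 x y e hx hy he, ← hcode]
            change (get P i).testBit _ = true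
            rw [← hand, Nat.testBit_and] at hbit
            exact (Bool.and_eq_true_iff.mp hbit).1
          | succ j =>
            have := ih (i + 1) ctr (s >>> 16) h j (by omega)
            rw [show i + (j + 1) = i + 1 + j by ring]
            exact this

end RTwo
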