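import Pool.Agent.Helper45.RT.Stmts3

set_option autoImplicit false

namespace RTwo

open Finset

theorem tot_pos_code_ne {n : ℕ} {c : Col} (h : 0 < tot n c) : code n c ≠ 0 := by
  intro h0
  have hz : ∀ i j, i < n → j < n → c i j = 0 := by
    intro i j hi hj
    unfold code at h0
    rw [Finset.sum_eq_zero_iff] at h0
    have h1 := h0 i (mem_range.mpr hi)
    rw [Finset.sum_eq_zero_iff] at h1
    have h2 := h1 j (mem_range.mpr hj)
    rcases Nat.mul_eq_zero.mp h2 with h3 | h3
    · exact h3
    · exact absurd h3 (by positivity)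
  have ha : totA n c = 0 := by
    unfold totA nA
    refine Finset.sum_eq_zero (fun v hv => ?_)
    rw [Finset.card_eq_zero, Finset.filter_eq_empty_iff]
    intro w hw
    rw [hz v w (mem_range.mp hv) (mem_range.mp hw)]
    norm_num
  have hb : totB n c = 0 := by
    unfold totB nB
    refine Finset.sum_eq_zero (fun v hv => ?_)
    rw [Finset.card_eq_zero, Finset.filter_eq_empty_iff]
    intro w hw
    rw [hz v w (mem_range.mp hv) (mem_range.mp hw)]
    norm_num
  unfold tot at h
  omega

theorem st_FILTL (h1 : ST_RLD) (h2 : ST_DCOL) : ST_FILTL := by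
  intro I P L N hP hf c hc ht hR hin
  obtain ⟨idx, r, f, hr, hg⟩ := hin
  obtain ⟨s1, s2, s3, -⟩ := h2 7 r f c (by norm_num) hc
  have hpos : 0 < tot 7 (dcol 7 r f c) := by
    unfold tot at ht ⊢
    omega
  have hne := tot_pos_code_ne hpos
  have hlt : idx < N := by
    by_contra hge
    exact hne (hg ▸ hP idx (by omega))
  rcases hf idx hlt with h | ⟨j, hj⟩
  · exact absurd (h1 I 7 r f c (by norm_num) hR) (h _ s1 hg)
  · exact ⟨j, r, f, hr, hj.trans hg⟩

end RTwo
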