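import Pool.Agent.Helper45.RT.Stmts3

set_option autoImplicit false

namespace RTwo

theorem st_ROTD : ST_ROTD := by
  intro k D hk0 hk10 hD
  obtain ⟨m, rfl⟩ : ∃ m, k = m + 1 := ⟨k - 1, by omega⟩
  have e1 : rotD (m + 1) D = D / 16 + (D % 16) * 16 ^ m := by
    have h0 : rotD (m + 1) D = D >>> 4 + (D % 16) <<< (4 * m) := rfl
    rw [h0, Nat.shiftRight_eq_div_pow, Nat.shiftLeft_eq, pow_mul]
    norm_num
  have hq : D / 16 < 16 ^ m := by
    apply Nat.div_lt_of_lt_mul
    calc D < 16 ^ (m + 1) := hD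
      _ = 16 * 16 ^ m := by ring
  have hr : D % 16 < 16 := Nat.mod_lt _ (by norm_num)
  rw [e1]
  refine ⟨?_, ?_⟩
  · have h1 : (D % 16) * 16 ^ m ≤ 15 * 16 ^ m := Nat.mul_le_mul_right _ (by omega)
    calc D / 16 + (D % 16) * 16 ^ m < 16 ^ m + 15 * 16 ^ m := by omega
      _ = 16 ^ (m + 1) := by ring
  · intro v hv
    rcases Nat.lt_or_ge v m with h | h
    · have h2 : (v + 1) % (m + 1) = v + 1 := Nat.mod_eq_of_lt (by omega)
      rw [h2]
      obtain ⟨d, rfl⟩ : ∃ d, m = v + (d + 1) := ⟨m - v - 1, by omega⟩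
      have h3 : (D % 16) * 16 ^ (v + (d + 1)) = 16 ^ v * (((D % 16) * 16 ^ d) * 16) := by
        rw [pow_add, pow_succ]; ring
      rw [h3, Nat.add_mul_div_left _ _ (by positivity), Nat.add_mul_mod_self_right,
        Nat.div_div_eq_div_mul, pow_succ, mul_comm (16 : ℕ) (16 ^ v)]
    · have hvm : v = m := by omega
      subst hvm
      have h2 : (v + 1) % (v + 1) = 0 := Nat.mod_self _
      rw [h2, Nat.add_mul_div_right _ _ (by positivity), Nat.div_eq_of_lt hq]
      simp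

end RTwo
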