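import Pool.Agent.Helper45.RT.Stmts3

set_option autoImplicit false

namespace RTwo

/-- the loop of `symk` stopped at `m` -/
noncomputable def symkAux (k cur m : ℕ) : ℕ :=
  Nat.rec (motive := fun _ => Nat) cur
    (fun j ih => ih ||| (((cur >>> (20 * k + 2 * j)) % 4) <<< (20 * j + 2 * k))) m

theorem symkAux_testBit (k cur m t : ℕ) :
    (symkAux k cur m).testBit t = true ↔ cur.testBit t = true ∨
      ∃ j e, j < m ∧ e < 2 ∧ t = 20 * j + 2 * k + e ∧ cur.testBit (20 * k + 2 * j + e) = true := by
  induction m with
  | zero =>
    change cur.testBit t = true ↔ _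
    constructor
    · intro h; exact Or.inl h
    · rintro (h | ⟨j, e, hj, -⟩)
      · exact h
      · omega
  | succ m ih =>
    change (symkAux k cur m ||| (((cur >>> (20 * k + 2 * m)) % 4) <<<
      (20 * m + 2 * k))).testBit t = true ↔ _
    rw [Nat.testBit_or, Bool.or_eq_true, ih, Nat.testBit_shiftLeft,
      show (4 : ℕ) = 2 ^ 2 by norm_num, Nat.testBit_mod_two_pow, Nat.testBit_shiftRight]
    constructor
    · rintro ((h | ⟨j, e, hj, he, ht, hb⟩) | h)
      · exact Or.inl h
      · exact Or.inr ⟨j, e, by omega, he, ht, hb⟩
      · rw [Bool.and_eq_true, Bool.and_eq_true, decide_eq_true_iff, decide_eq_true_iff] at h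
        obtain ⟨h1, h2, h3⟩ := h
        exact Or.inr ⟨m, t - (20 * m + 2 * k), by omega, h2, by omega, h3⟩
    · rintro (h | ⟨j, e, hj, he, ht, hb⟩)
      · exact Or.inl (Or.inl h)
      · rcases Nat.lt_or_ge j m with hjm | hjm
        · exact Or.inl (Or.inr ⟨j, e, hjm, he, ht, hb⟩)
        · have hj' : j = m := by omega
          subst hj'
          refine Or.inr ?_
          rw [Bool.and_eq_true, Bool.and_eq_true, decide_eq_true_iff, decide_eq_true_iff]
          have h4 : t - (20 * j + 2 * k) = e := by omega
          exact ⟨by omega, by omega, by rw [h4]; exact hb⟩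

theorem st_SYMK (h1 : ST_BITS) : ST_SYMK := by
  intro k c cur und hk hc hinv hund
  have hc3 : ∀ i j, i < k + 1 → j < k + 1 → c i j ≤ 3 := fun i j hi hj => by
    have := (hc i j hi hj).2.2
    omega
  obtain ⟨b1, b2, b3, -, -⟩ := h1 (k + 1) c (by omega) hc3
  obtain ⟨i1, i2, i3, i4⟩ := hinv
  have e0 : symk k cur = symkAux k cur k := rfl
  rw [e0]
  apply Nat.eq_of_testBit_eq
  intro t
  rw [Bool.eq_iff_iff, symkAux_testBit]
  rcases Nat.lt_or_ge t (20 * (k + 1)) with ht | ht
  · obtain ⟨i, j, e, hi, hj, he, rfl⟩ : ∃ i j e, i < k + 1 ∧ j < 10 ∧ e < 2 ∧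
        t = 20 * i + 2 * j + e :=
      ⟨t / 20, t % 20 / 2, t % 2, by omega, by omega, by omega, by omega⟩
    rcases Nat.lt_or_ge i k with hik | hik
    · rcases lt_trichotomy j k with hjk | hjk | hjk
      · -- inside the base
        rw [i1 i j e hik hjk he, b1 i j e hi (by omega) he]
        constructor
        · rintro (h | ⟨j', e', hj', he', ht', -⟩)
          · exact h
          · omega
        · intro h; exact Or.inl h
      · subst hjk
        rw [i3 i j e (by omega) hj (by omega) he, b1 i j e hi (by omega) he]
        have hs := i2 i e hik he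
        rw [hund i hik] at hs
        have hsym : c i j = c j i := (hc i j hi (by omega)).1
        constructor
        · rintro (h | ⟨j', e', hj', he', ht', hb⟩)
          · exact absurd h (by simp)
          · have h5 : j' = i := by omega
            have h6 : e' = e := by omega
            subst h5 h6
            rw [hs] at hb
            rw [hsym]
            simpa using hb
        · intro h
          refine Or.inr ⟨i, e, hik, he, rfl, ?_⟩
          rw [hs, ← hsym]
          simpa using h
      · rw [i3 i j e (by omega) hj (by omega) he, b2 i j e hi hj (by omega) he]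
        constructor
        · rintro (h | ⟨j', e', hj', he', ht', hb⟩)
          · exact h
          · omega
        · intro h; exact Or.inl h
    · have hik' : i = k := by omega
      subst hik'
      rcases lt_trichotomy j i with hjk | hjk | hjk
      · have hs := i2 j e hjk he
        rw [hund j hjk] at hs
        rw [hs, b1 i j e hi (by omega) he]
        constructor
        · rintro (h | ⟨j', e', hj', he', ht', -⟩)
          · simpa using h
          · omega
        · intro h; exact Or.inl (by simpa using h)
      · subst hjk
        rw [i3 j j e (by omega) hj (by omega) he, b1 j j e hi (by omega) he]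
        have h0 : c j j = 0 := (hc j j hi hi).2.1
        rw [h0]
        constructor
        · rintro (h | ⟨j', e', hj', he', ht', -⟩)
          · exact absurd h (by simp)
          · omega
        · intro h
          exact absurd h (by simp)
      · rw [i3 i j e (by omega) hj (by omega) he, b2 i j e hi hj (by omega) he]
        constructor
        · rintro (h | ⟨j', e', hj', he', ht', -⟩)
          · exact h
          · omega
        · intro h; exact Or.inl h
  · rw [i4 t ht, b3 t ht]
    constructor
    · rintro (h | ⟨j', e', hj', he', ht', -⟩)
      · exact h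
      · omega
    · intro h; exact Or.inl h

end RTwo
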